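import Pool.Agent.H77.BE.Perm
import Pool.Agent.H84.B.Hil1
import Pool.Agent.H84.B.Hil2
import Pool.Agent.H84.B.Pb1

/-!
# Module MONO of MP_02e9fb_an: `T_qanti`, `T_FA`
-/

open scoped ComplexConjugate InnerProductSpace
open Filter Topology

namespace Pool.Agent.H18.BE

open Pool.Agent.H84.B Pool.Agent.H77.BE

theorem t_basic : T_basic := basic hh_facts
theorem t_indep : T_indep := indep perm_extend
theorem t_mult : T_mult := mult hh_facts Pool.Agent.H77.BE.conj t_indep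
theorem t_PRlim : T_PRlim :=
  PRlim perm_extend copies hh_facts t_basic t_indep t_mult

section

variable {Λ : Type} [CommRing Λ] {A : Type} [CommRing A] [StarRing A] [Algebra ℂ A]
    [StarModule ℂ A] {H : Type} [NormedAddCommGroup H] [InnerProductSpace ℂ H] [CompleteSpace H]

lemma supp_smul (k : Λ) (y : Y Λ) : (k • y).1.support ⊆ y.1.support :=
  Finsupp.support_smul

lemma off_smul (k : Λ) (y : Y Λ) (B : Finset ℕ) (h : Off y B) : Off (k • y) B :=
  Finset.disjoint_of_subset_left (supp_smul k y) h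

lemma dsj_smul (k : Λ) (y y' : Y Λ) (h : Dsj y y') : Dsj (k • y) (k • y') :=
  Finset.disjoint_of_subset_left (supp_smul k y)
    (Finset.disjoint_of_subset_right (supp_smul k y') h)

lemma dsj_hh (p : ℕ) (β : ℕ → Λ) (o m o' m' : ℕ) (h : o + (p + 1) * m ≤ o') :
    Dsj (hh p β o m) (hh p β o' m') := by
  apply dsj_of
  intro i h1 h2
  have a1 := hh_supp p β o m i h1
  have a2 := hh_supp p β o' m' i h2
  omega

lemma dsj_symm {y y' : Y Λ} (h : Dsj y y') : Dsj y' y := Disjoint.symm h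

lemma off_hh (p : ℕ) (β : ℕ → Λ) (o m n : ℕ) (h : 2 * ((p + 1) * m) ≤ o) :
    Off (hh p β o n) (W p m) := by
  unfold Off W
  rw [Finset.disjoint_left]
  intro i hi hi2
  have a1 := hh_supp p β o n i (Finsupp.mem_support_iff.1 hi)
  rw [Finset.mem_range] at hi2
  omega

lemma supp_bb (p : ℕ) (β : ℕ → Λ) (m : ℕ) : (bb p β m).1.support ⊆ W p m := by
  intro i hi
  rw [Finsupp.mem_support_iff] at hi
  unfold W
  rw [Finset.mem_range]
  by_contra hcon
  apply hi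
  have h1 : (hh p β ((p + 1) * m) m).1 i = 0 := by
    by_contra h
    have := hh_supp p β _ m i h
    omega
  have h2 : (hh p β 0 m).1 i = 0 := by
    by_contra h
    have := hh_supp p β _ m i h
    omega
  change (hh p β ((p + 1) * m) m).1 i - (hh p β 0 m).1 i = 0
  rw [h1, h2, sub_zero]

lemma inner_PH_left (R : Rep Λ H) (B : Finset ℕ) (w u : H) (hw : w ∈ R.HB B) :
    ⟪R.PH B u, w⟫_ℂ = ⟪u, w⟫_ℂ := by
  rw [← inner_conj_symm, hil1_inner_PH R B w u hw, inner_conj_symm]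

lemma PH_mem (R : Rep Λ H) (B : Finset ℕ) (u : H) : R.PH B u ∈ R.HB B :=
  Submodule.starProjection_apply_mem _ u

lemma PR_mem (R : Rep Λ H) (B : Finset ℕ) (u : H) : R.PR B u ∈ R.RB B :=
  Submodule.starProjection_apply_mem _ u

lemma norm_PH_le (R : Rep Λ H) (B : Finset ℕ) (u : H) : ‖R.PH B u‖ ≤ ‖u‖ :=
  Submodule.norm_starProjection_apply_le _ u

lemma norm_PR_le (R : Rep Λ H) (B : Finset ℕ) (u : H) : ‖R.PR B u‖ ≤ ‖u‖ :=
  Submodule.norm_starProjection_apply_le _ u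

lemma inner_off (R : Rep Λ H) (B : Finset ℕ) (x y : H) (c c' : Y Λ) (hx : x ∈ R.HB B)
    (hy : y ∈ R.HB B) (hd : Dsj c c') :
    ⟪R.U c x, R.U c' y⟫_ℂ = ⟪R.PH B (R.U c x), R.PH B (R.U c' y)⟫_ℂ := by
  have h1 : R.U c x ∈ R.HB (B ∪ c.1.support) := hil1_U_HB hh_facts R _ c x (by simp)
    (hil1_HB_mono R Finset.subset_union_left hx)
  have h2 : R.U c' y ∈ R.HB (B ∪ c'.1.support) := hil1_U_HB hh_facts R _ c' y (by simp)
    (hil1_HB_mono R Finset.subset_union_left hy)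
  rw [hil1_inner_indep t_indep R _ _ _ _ h1 h2]
  have h3 : (B ∪ c.1.support) ∩ (B ∪ c'.1.support) = B := by
    rw [← Finset.union_inter_distrib_left, Finset.disjoint_iff_inter_eq_empty.1 hd,
      Finset.union_empty]
  rw [h3, inner_PH_left R B _ _ (PH_mem R B _)]

/-- the vector `G_m` -/
noncomputable def G (S : Sys Λ A H) (p : ℕ) (β : ℕ → Λ) (k : Λ) (u : A) (m : ℕ) : H :=
  S.ι (S.UA (k • bb p β m) u * star u)

/-- the vector `PH_{W_m} U_{k c} G_m`, `c` a copy of `hh 0 n` -/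
noncomputable def x0 (S : Sys Λ A H) (p : ℕ) (β : ℕ → Λ) (k : Λ) (u : A) (m n : ℕ) : H :=
  S.PH (W p m) (S.U (k • hh p β (2 * ((p + 1) * m)) n) (G S p β k u m))

lemma G_mem (S : Sys Λ A H) (p : ℕ) (β : ℕ → Λ) (k : Λ) (u : A) (hu : S.ι u ∈ S.HB ∅) (m : ℕ) :
    G S p β k u m ∈ S.HB (W p m) := by
  have h1 : S.ι u ∈ S.HB (W p m) := hil1_HB_mono S.toRep (Finset.empty_subset _) hu
  unfold G
  apply pb1_HB_mul
  · rw [S.ι_U]
    exact hil1_U_HB hh_facts S.toRep _ _ _ ((supp_smul k _).trans (supp_bb p β m)) h1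
  · exact pb1_HB_star S _ _ h1

lemma x0_copy (S : Sys Λ A H) (p : ℕ) (β : ℕ → Λ) (k : Λ) (u : A) (hu : S.ι u ∈ S.HB ∅) (m n : ℕ)
    (c : Y Λ) (hc : IsCopy (hh p β 0 n) c) (hoff : Off c (W p m)) :
    S.PH (W p m) (S.U (k • c) (G S p β k u m)) = x0 S p β k u m n := by
  obtain ⟨-, h2, -⟩ := t_mult Λ H S.toRep (W p m)
  unfold x0
  apply h2 _ _ _ (G_mem S p β k u hu m)
  · exact off_smul k _ _ (off_hh p β _ m n le_rfl)
  · exact off_smul k _ _ hoff
  · exact copy_smul k (copy_trans (copy_symm (copy_hh p β _ n)) hc)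

lemma x0_succ (S : Sys Λ A H) (p : ℕ) (β : ℕ → Λ) (k : Λ) (u : A) (hu : S.ι u ∈ S.HB ∅)
    (m n : ℕ) : ‖x0 S p β k u m (n + 1)‖ ≤ ‖x0 S p β k u m n‖ := by
  obtain ⟨h1, -, -⟩ := t_mult Λ H S.toRep (W p m)
  have hoff := off_hh p β (2 * ((p + 1) * m)) m n le_rfl
  have hoff' := off_hh p β (2 * ((p + 1) * m)) m (n + 1) le_rfl
  have hD : ∀ i, (Dblk p (β n) (2 * ((p + 1) * m) + (p + 1) * n)).1 i ≠ 0 →
      2 * ((p + 1) * m) + (p + 1) * n ≤ i := fun i hi => (Dblk_supp p _ _ i hi).1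
  have e : x0 S p β k u m (n + 1) = S.PH (W p m) (S.U (k •
      Dblk p (β n) (2 * ((p + 1) * m) + (p + 1) * n)) (x0 S p β k u m n)) := by
    unfold x0
    rw [hh_succ, smul_add, add_comm (k • hh p β _ n)]
    apply h1 _ _ _ (G_mem S p β k u hu m)
    · apply off_smul
      unfold Off W
      rw [Finset.disjoint_left]
      intro i hi hi2
      have a1 := hD i (Finsupp.mem_support_iff.1 hi)
      rw [Finset.mem_range] at hi2
      omega
    · exact off_smul k _ _ hoff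
    · apply dsj_smul
      apply dsj_of
      intro i a1 a2
      have b1 := hD i a1
      have b2 := hh_supp p β _ n i a2
      omega
  rw [e]
  refine (norm_PH_le S.toRep _ _).trans ?_
  rw [LinearIsometryEquiv.norm_map]

lemma x0_anti (S : Sys Λ A H) (p : ℕ) (β : ℕ → Λ) (k : Λ) (u : A) (hu : S.ι u ∈ S.HB ∅)
    (m : ℕ) : Antitone (fun n => ‖x0 S p β k u m n‖) :=
  antitone_nat_of_succ_le (fun n => x0_succ S p β k u hu m n)

/-- the four-point trace -/
noncomputable def Qf (S : Sys Λ A H) (k : Λ) (u : A) (x1 x2 y1 y2 : Y Λ) : ℂ :=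
  S.tr ((S.UA (k • (x1 + y1)) u * star (S.UA (k • (x1 + y2)) u)) *
    (S.UA (k • (x2 + y2)) u * star (S.UA (k • (x2 + y1)) u)))

lemma Qf_symm (S : Sys Λ A H) (k : Λ) (u : A) (x1 x2 y1 y2 : Y Λ) :
    Qf S k u x1 x2 y1 y2 = Qf S k u y1 y2 x1 x2 := by
  unfold Qf
  rw [add_comm y1 x1, add_comm y1 x2, add_comm y2 x2, add_comm y2 x1]
  congr 1
  ring

lemma Qf_pY (S : Sys Λ A H) (k : Λ) (u : A) (hu : S.ι u ∈ S.HB ∅) (σ : FP) (x1 x2 y1 y2 : Y Λ) :
    Qf S k u (pY σ x1) (pY σ x2) (pY σ y1) (pY σ y2) = Qf S k u x1 x2 y1 y2 := by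
  obtain ⟨-, -, -, -, -, -, -, -, -, -, -, -, -, -, -, -, -, -, -, -, hVU, -, htr⟩ := bd Λ A H S
  have hfix : S.VA σ u = u := pb1_VA_fix S σ u (hu σ (by simp))
  have h1 : ∀ x y : Y Λ, S.UA (k • (pY σ x + pY σ y)) u = S.VA σ (S.UA (k • (x + y)) u) := by
    intro x y
    rw [hVU, hfix, pY_smul, pY_add]
  unfold Qf
  rw [h1, h1, h1, h1, ← map_star (S.VA σ), ← map_star (S.VA σ), ← map_mul (S.VA σ),
    ← map_mul (S.VA σ), ← map_mul (S.VA σ), htr]

lemma Qf_eq (S : Sys Λ A H) (p : ℕ) (β : ℕ → Λ) (k : Λ) (u : A) (m : ℕ) (c c' : Y Λ) :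
    ⟪S.U (k • c) (G S p β k u m), S.U (k • c') (G S p β k u m)⟫_ℂ =
      Qf S k u c c' (hh p β 0 m) (hh p β ((p + 1) * m) m) := by
  have key : ∀ c : Y Λ, S.U (k • hh p β 0 m) (S.U (k • c) (G S p β k u m)) =
      S.ι (S.UA (k • (c + hh p β ((p + 1) * m) m)) u *
        star (S.UA (k • (c + hh p β 0 m)) u)) := by
    intro c
    unfold G bb
    rw [← S.ι_U, ← S.ι_U, map_mul, map_mul, map_star, map_star, ← pb1_UA_add, ← pb1_UA_add,
      ← pb1_UA_add]
    congr 3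
    · congr 2
      module
    · congr 2
      module
  rw [← (S.U (k • hh p β 0 m)).inner_map_map, key, key, ← pb1_tr_star_mul]
  unfold Qf
  rw [star_mul, star_star]

lemma x0_sq (S : Sys Λ A H) (p : ℕ) (β : ℕ → Λ) (k : Λ) (u : A) (hu : S.ι u ∈ S.HB ∅)
    (m n : ℕ) : ((‖x0 S p β k u m n‖ : ℂ)) ^ 2 =
      Qf S k u (hh p β (2 * ((p + 1) * m)) n) (hh p β (2 * ((p + 1) * m) + (p + 1) * n) n)
        (hh p β 0 m) (hh p β ((p + 1) * m) m) := by
  rw [← Qf_eq, inner_off S.toRep (W p m) _ _ _ _ (G_mem S p β k u hu m) (G_mem S p β k u hu m)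
    (dsj_smul k _ _ (dsj_hh p β _ n _ n le_rfl))]
  rw [x0_copy S p β k u hu m n _ (copy_hh p β _ n) (off_hh p β _ m n le_rfl),
    x0_copy S p β k u hu m n _ (copy_hh p β _ n) (off_hh p β _ m n (by omega))]
  rw [inner_self_eq_norm_sq_to_K]
  rfl

lemma x0_symm (S : Sys Λ A H) (p : ℕ) (β : ℕ → Λ) (k : Λ) (u : A) (hu : S.ι u ∈ S.HB ∅)
    (m n : ℕ) : ‖x0 S p β k u m n‖ = ‖x0 S p β k u n m‖ := by
  have h1 := x0_sq S p β k u hu m n
  have h2 := x0_sq S p β k u hu n m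
  set a1 := hh p β (2 * ((p + 1) * m)) n
  set a2 := hh p β (2 * ((p + 1) * m) + (p + 1) * n) n
  set a3 := hh p β 0 m
  set a4 := hh p β ((p + 1) * m) m
  set b1 := hh p β 0 n
  set b2 := hh p β ((p + 1) * n) n
  set b3 := hh p β (2 * ((p + 1) * n)) m
  set b4 := hh p β (2 * ((p + 1) * n) + (p + 1) * m) m
  have cp : ∀ o o' l : ℕ, IsCopy (hh p β o l) (hh p β o' l) := fun o o' l =>
    copy_trans (copy_symm (copy_hh p β o l)) (copy_hh p β o' l)
  obtain ⟨σ, -, hσ⟩ := Pool.Agent.H77.BE.conj Λ ∅ 4 ![b1, b2, b3, b4] ![a1, a2, a3, a4] (by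
      intro i
      fin_cases i
      · exact cp _ _ _
      · exact cp _ _ _
      · exact cp _ _ _
      · exact cp _ _ _)
    (fun _ => by simp [Off]) (fun _ => by simp [Off])
    (by
      have d12 : Dsj b1 b2 := dsj_hh p β _ _ _ _ (by omega)
      have d13 : Dsj b1 b3 := dsj_hh p β _ _ _ _ (by omega)
      have d14 : Dsj b1 b4 := dsj_hh p β _ _ _ _ (by omega)
      have d23 : Dsj b2 b3 := dsj_hh p β _ _ _ _ (by omega)
      have d24 : Dsj b2 b4 := dsj_hh p β _ _ _ _ (by omega)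
      have d34 : Dsj b3 b4 := dsj_hh p β _ _ _ _ (by omega)
      intro i j hij
      fin_cases i <;> fin_cases j
      · exact absurd rfl hij
      · exact d12
      · exact d13
      · exact d14
      · exact dsj_symm d12
      · exact absurd rfl hij
      · exact d23
      · exact d24
      · exact dsj_symm d13
      · exact dsj_symm d23
      · exact absurd rfl hij
      · exact d34
      · exact dsj_symm d14
      · exact dsj_symm d24
      · exact dsj_symm d34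
      · exact absurd rfl hij)
    (by
      have d12 : Dsj a1 a2 := dsj_hh p β _ _ _ _ (by omega)
      have d13 : Dsj a3 a1 := dsj_hh p β _ _ _ _ (by omega)
      have d14 : Dsj a4 a1 := dsj_hh p β _ _ _ _ (by omega)
      have d23 : Dsj a3 a2 := dsj_hh p β _ _ _ _ (by omega)
      have d24 : Dsj a4 a2 := dsj_hh p β _ _ _ _ (by omega)
      have d34 : Dsj a3 a4 := dsj_hh p β _ _ _ _ (by omega)
      intro i j hij
      fin_cases i <;> fin_cases j
      · exact absurd rfl hij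
      · exact d12
      · exact dsj_symm d13
      · exact dsj_symm d14
      · exact dsj_symm d12
      · exact absurd rfl hij
      · exact dsj_symm d23
      · exact dsj_symm d24
      · exact d13
      · exact d23
      · exact absurd rfl hij
      · exact d34
      · exact d14
      · exact d24
      · exact dsj_symm d34
      · exact absurd rfl hij)
  have s1 : a1 = pY σ b1 := hσ 0
  have s2 : a2 = pY σ b2 := hσ 1
  have s3 : a3 = pY σ b3 := hσ 2
  have s4 : a4 = pY σ b4 := hσ 3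
  rw [s1, s2, s3, s4, Qf_pY S k u hu, Qf_symm, ← h2] at h1
  have h3 : ‖x0 S p β k u m n‖ ^ 2 = ‖x0 S p β k u n m‖ ^ 2 := by exact_mod_cast h1
  exact (pow_left_inj₀ (norm_nonneg _) (norm_nonneg _) (by norm_num)).1 h3

lemma x0_anti' (S : Sys Λ A H) (p : ℕ) (β : ℕ → Λ) (k : Λ) (u : A) (hu : S.ι u ∈ S.HB ∅)
    {m m' n n' : ℕ} (hm : m ≤ m') (hn : n ≤ n') :
    ‖x0 S p β k u m' n'‖ ≤ ‖x0 S p β k u m n‖ := by
  calc ‖x0 S p β k u m' n'‖ ≤ ‖x0 S p β k u m' n‖ := x0_anti S p β k u hu m' hn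
    _ = ‖x0 S p β k u n m'‖ := x0_symm S p β k u hu m' n
    _ ≤ ‖x0 S p β k u n m‖ := x0_anti S p β k u hu n hm
    _ = _ := x0_symm S p β k u hu n m

/-- `PR G_m` -/
lemma PR_x0 (S : Sys Λ A H) (p : ℕ) (β : ℕ → Λ) (k : Λ) (u : A) (m n : ℕ) :
    S.PR (W p m) (x0 S p β k u m n) = S.PR (W p m) (G S p β k u m) := by
  obtain ⟨-, -, -, -, -, -, -, -, -, -, h11, h12⟩ := t_basic Λ H S.toRep
  unfold x0
  rw [h12, h11 _ _ _ (off_smul k _ _ (off_hh p β _ m n le_rfl))]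

lemma q_eq (S : Sys Λ A H) (p : ℕ) (β : ℕ → Λ) (k : Λ) (u : A) (m : ℕ) :
    S.q p β k m u = ‖S.PR (W p m) (G S p β k u m)‖ := rfl

lemma q_le (S : Sys Λ A H) (p : ℕ) (β : ℕ → Λ) (k : Λ) (u : A) (m n : ℕ) :
    S.q p β k m u ≤ ‖x0 S p β k u m n‖ := by
  rw [q_eq, ← PR_x0 S p β k u m n]
  exact norm_PR_le S.toRep _ _

lemma x0_lim (S : Sys Λ A H) (p : ℕ) [Fact p.Prime] (ρ : Λ →+* ZMod p) (β : ℕ → Λ) (k : Λ)
    (u : A) (hE : Exh ρ β) (hk : IsUnit k) (hu : S.ι u ∈ S.HB ∅) (m : ℕ) (ε : ℝ) (hε : 0 < ε) :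
    ∃ n, ‖x0 S p β k u m n‖ ≤ S.q p β k m u + ε := by
  obtain ⟨M, hM⟩ := t_PRlim Λ H S.toRep p ρ β k (W p m) (G S p β k u m) ε hE hk
    (G_mem S p β k u hu m) hε
  refine ⟨M, ?_⟩
  have h := hM M le_rfl (hh p β (2 * ((p + 1) * m)) M) (copy_hh p β _ M)
    (off_hh p β _ m M le_rfl)
  rw [q_eq]
  have h1 : x0 S p β k u m M = (x0 S p β k u m M - S.PR (W p m) (G S p β k u m)) +
      S.PR (W p m) (G S p β k u m) := by abel
  rw [h1]
  refine (norm_add_le _ _).trans ?_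
  have h2 : ‖x0 S p β k u m M - S.PR (W p m) (G S p β k u m)‖ ≤ ε := h
  linarith

lemma q_anti (S : Sys Λ A H) (p : ℕ) [Fact p.Prime] (ρ : Λ →+* ZMod p) (β : ℕ → Λ) (k : Λ)
    (u : A) (hE : Exh ρ β) (hk : IsUnit k) (hu : S.ι u ∈ S.HB ∅) :
    Antitone (fun m => S.q p β k m u) := by
  intro m m' hmm
  apply le_of_forall_pos_le_add
  intro ε hε
  obtain ⟨n, hn⟩ := x0_lim S p ρ β k u hE hk hu m ε hε
  exact (q_le S p β k u m' n).trans ((x0_anti' S p β k u hu hmm le_rfl).trans hn)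

lemma norm_G_le (S : Sys Λ A H) (p : ℕ) (β : ℕ → Λ) (k : Λ) (u : A) (h : S.Bd 1 u) (m : ℕ) :
    ‖G S p β k u m‖ ≤ 1 := by
  obtain ⟨-, -, -, h4, h5, h6, -, -, -, h10, -⟩ := bd Λ A H S
  have h1 : S.Bd (1 * 1) (S.UA (k • bb p β m) u * star u) :=
    h6 1 1 _ _ (h10 1 u _ h) (h5 1 u h)
  have := h4 _ _ h1
  rw [one_mul] at this
  exact this

/-- Pythagoras -/
lemma pyth (R : Rep Λ H) (B : Finset ℕ) (x : H) :
    ‖x - R.PR B x‖ ^ 2 = ‖x‖ ^ 2 - ‖R.PR B x‖ ^ 2 := by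
  have h := Submodule.norm_sq_eq_add_norm_sq_starProjection x (R.RB B)
  have h2 : (R.RB B)ᗮ.starProjection x = x - R.PR B x := by
    rw [Submodule.starProjection_orthogonal']
    rfl
  rw [h2] at h
  have h3 : (R.RB B).starProjection x = R.PR B x := rfl
  rw [h3] at h
  linarith

end

theorem qanti : T_qanti := by
  intro Λ _ A _ _ _ _ H _ _ _ S p _ ρ β k u hE hk hu
  exact q_anti S p ρ β k u hE hk hu

theorem fa : T_FA := by
  intro Λ _ A _ _ _ _ H _ _ _ S p _ ρ β k f hE hk hf hB hL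
  obtain ⟨φ, hφ, hLLN⟩ := hL
  refine ⟨φ, hφ, ?_⟩
  intro ε hε
  -- the infimum of the seminorms
  set δ : ℝ := ε ^ 2 / 36 with hδ
  have hδ0 : 0 < δ := by positivity
  have hq0 : ∀ m, 0 ≤ S.q p β k m f := fun m => norm_nonneg _
  have hanti := q_anti S p ρ β k f hE hk hf
  have hbdd : BddBelow (Set.range (fun m => S.q p β k m f)) := ⟨0, by
    rintro _ ⟨m, rfl⟩
    exact hq0 m⟩
  set L : ℝ := ⨅ m, S.q p β k m f with hLdef
  have hLle : ∀ m, L ≤ S.q p β k m f := fun m => ciInf_le hbdd m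
  obtain ⟨m1, hm1⟩ : ∃ m1, S.q p β k m1 f < L + δ :=
    exists_lt_of_ciInf_lt (by rw [← hLdef]; linarith)
  obtain ⟨n1, hn1⟩ := x0_lim S p ρ β k f hE hk hf m1 δ hδ0
  set M0 := max m1 n1 with hM0
  have hM : ‖x0 S p β k f M0 M0‖ ≤ L + 2 * δ := by
    have := x0_anti' S p β k f hf (le_max_left m1 n1) (le_max_right m1 n1)
    linarith
  have hclose : ∀ m, M0 ≤ m →
      ‖x0 S p β k f m M0 - S.PR (W p m) (G S p β k f m)‖ ≤ ε / 3 := by
    intro m hm
    have h1 : ‖x0 S p β k f m M0‖ ≤ S.q p β k m f + 2 * δ := by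
      have := x0_anti' S p β k f hf hm (le_refl M0)
      have := hLle m
      linarith
    have h2 := pyth S.toRep (W p m) (x0 S p β k f m M0)
    have e1 : S.toRep.PR (W p m) (x0 S p β k f m M0) = S.PR (W p m) (G S p β k f m) :=
      PR_x0 S p β k f m M0
    rw [e1] at h2
    have h3 := q_le S p β k f m M0
    rw [q_eq] at h1 h3
    have h4 : ‖x0 S p β k f m M0‖ ≤ 1 := by
      unfold x0
      refine (norm_PH_le S.toRep _ _).trans ?_
      rw [LinearIsometryEquiv.norm_map]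
      exact norm_G_le S p β k f hB m
    have h5 := norm_nonneg (S.PR (W p m) (G S p β k f m))
    have h6 : ‖x0 S p β k f m M0 - S.PR (W p m) (G S p β k f m)‖ ^ 2 ≤ (ε / 3) ^ 2 := by
      rw [h2]
      set a := ‖x0 S p β k f m M0‖
      set b := ‖S.PR (W p m) (G S p β k f m)‖
      have : a ^ 2 - b ^ 2 = (a - b) * (a + b) := by ring
      rw [this]
      calc (a - b) * (a + b) ≤ (2 * δ) * 2 := by
            apply mul_le_mul
            · linarith
            · linarith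
            · linarith
            · linarith
        _ = (ε / 3) ^ 2 := by rw [hδ]; ring
    exact (pow_le_pow_iff_left₀ (norm_nonneg _) (by positivity) (by norm_num)).1 h6
  set ε2 : ℝ := min (ε / 3) ((ε / 3) ^ 2) with hε2
  have hε20 : 0 < ε2 := lt_min (by positivity) (by positivity)
  obtain ⟨N, hN, hNε, v, hv, hLL⟩ := hLLN M0 ε2 hε20
  refine ⟨N, hN, v, hv, M0, ?_⟩
  intro l hl
  have hφl : M0 ≤ φ l := hl.trans (hφ.id_le l)
  obtain ⟨c, hc1, hc2, hc3⟩ := copies Λ (hh p β 0 M0) (W p (φ l)) N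
  have hA := hLL l c hc1 hc2 hc3
  set Gl := G S p β k f (φ l) with hGl
  have hGmem : Gl ∈ S.HB (W p (φ l)) := G_mem S p β k f hf (φ l)
  have hGn : ‖Gl‖ ≤ 1 := norm_G_le S p β k f hB (φ l)
  set x := x0 S p β k f (φ l) M0 with hx
  have hxmem : x ∈ S.HB (W p (φ l)) := PH_mem S.toRep _ _
  have hPH : ∀ n, S.PH (W p (φ l)) (S.U (k • c n) Gl) = x := fun n =>
    x0_copy S p β k f hf (φ l) M0 (c n) (hc1 n) (hc2 n)
  set D : Fin N → H := fun n => S.U (k • c n) Gl - x with hD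
  have i1 : ∀ n, ⟪S.U (k • c n) Gl, x⟫_ℂ = ⟪x, x⟫_ℂ := by
    intro n
    rw [← inner_PH_left S.toRep (W p (φ l)) x _ hxmem]
    exact congrArg (fun y => ⟪y, x⟫_ℂ) (hPH n)
  have i2 : ∀ n, ⟪x, S.U (k • c n) Gl⟫_ℂ = ⟪x, x⟫_ℂ := by
    intro n
    rw [← inner_conj_symm, i1, inner_conj_symm]
  have horth : ∀ n n', n ≠ n' → ⟪D n, D n'⟫_ℂ = 0 := by
    intro n n' hne
    simp only [hD]
    rw [inner_sub_left, inner_sub_right, inner_sub_right, i1, i2,
      inner_off S.toRep (W p (φ l)) _ _ _ _ hGmem hGmem (dsj_smul k _ _ (hc3 n n' hne))]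
    have e1 : S.toRep.PH (W p (φ l)) (S.toRep.U (k • c n) Gl) = x := hPH n
    have e2 : S.toRep.PH (W p (φ l)) (S.toRep.U (k • c n') Gl) = x := hPH n'
    rw [e1, e2]
    ring
  have hDn : ∀ n, ‖D n‖ ≤ 1 := by
    intro n
    have e1 : D n = (S.HB (W p (φ l)))ᗮ.starProjection (S.U (k • c n) Gl) := by
      rw [Submodule.starProjection_orthogonal']
      simp only [hD]
      rw [← hPH n]
      rfl
    rw [e1]
    refine (Submodule.norm_starProjection_apply_le _ _).trans ?_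
    rw [LinearIsometryEquiv.norm_map]
    exact hGn
  have hsum : ‖∑ n, D n‖ ^ 2 ≤ N := by
    have e1 : ⟪∑ n, D n, ∑ n, D n⟫_ℂ = ∑ n, ⟪D n, D n⟫_ℂ := by
      rw [sum_inner]
      apply Finset.sum_congr rfl
      intro n _
      rw [inner_sum, Finset.sum_eq_single n]
      · intro n' _ hne
        exact horth n n' (Ne.symm hne)
      · intro h
        exact absurd (Finset.mem_univ n) h
    have e2 : ‖∑ n, D n‖ ^ 2 = ∑ n, ‖D n‖ ^ 2 := by
      have h1 := inner_self_eq_norm_sq_to_K (𝕜 := ℂ) (∑ n, D n)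
      have h2 : ∀ n, ⟪D n, D n⟫_ℂ = ((‖D n‖ ^ 2 : ℝ) : ℂ) := by
        intro n
        rw [inner_self_eq_norm_sq_to_K (𝕜 := ℂ) (D n)]
        push_cast
        rfl
      rw [e1, Finset.sum_congr rfl (fun n _ => h2 n)] at h1
      have h3 : ((∑ n, ‖D n‖ ^ 2 : ℝ) : ℂ) = ((‖∑ n, D n‖ ^ 2 : ℝ) : ℂ) := by
        push_cast
        push_cast at h1
        exact h1
      exact_mod_cast h3.symm
    rw [e2]
    calc ∑ n, ‖D n‖ ^ 2 ≤ ∑ _n : Fin N, (1:ℝ) := by
          apply Finset.sum_le_sum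
          intro n _
          have := hDn n
          have := norm_nonneg (D n)
          nlinarith
      _ = N := by simp
  have hNr : (0:ℝ) < N := by exact_mod_cast hN
  have hB2 : ‖(1 / (N : ℂ)) • ∑ n, S.U (k • c n) Gl - x‖ ≤ ε / 3 := by
    have e1 : (1 / (N : ℂ)) • ∑ n, S.U (k • c n) Gl - x = (1 / (N : ℂ)) • ∑ n, D n := by
      simp only [hD]
      rw [Finset.sum_sub_distrib, smul_sub]
      congr 1
      simp only [Finset.sum_const, Finset.card_univ, Fintype.card_fin]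
      rw [← Nat.cast_smul_eq_nsmul ℂ, smul_smul]
      have : (N : ℂ) ≠ 0 := by exact_mod_cast hN.ne'
      rw [one_div, inv_mul_cancel₀ this, one_smul]
    have e2 : ‖(1 / (N : ℂ)) • ∑ n, D n‖ ^ 2 ≤ (ε / 3) ^ 2 := by
      rw [norm_smul, mul_pow]
      have e3 : ‖(1 / (N : ℂ))‖ = 1 / (N : ℝ) := by
        rw [norm_div, norm_one, Complex.norm_natCast]
      rw [e3]
      calc (1 / (N : ℝ)) ^ 2 * ‖∑ n, D n‖ ^ 2 ≤ (1 / (N : ℝ)) ^ 2 * (N : ℝ) := by gcongr
        _ = 1 / (N : ℝ) := by field_simp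
        _ ≤ ε2 := hNε
        _ ≤ _ := min_le_right _ _
    rw [e1]
    exact (pow_le_pow_iff_left₀ (norm_nonneg _) (by positivity) (by norm_num)).1 e2
  have hC := hclose (φ l) hφl
  rw [← hx] at hC
  have hA' : ‖(1 / (N : ℂ)) • ∑ n, S.ι (S.UA (k • bb p β (φ l)) (v n) * star (v n))
      - (1 / (N : ℂ)) • ∑ n, S.U (k • c n) Gl‖ ≤ ε / 3 := by
    refine le_trans (le_of_eq ?_) (hA.trans (min_le_left _ _))
    congr 2
    congr 1
    apply Finset.sum_congr rfl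
    intro n _
    rw [S.ι_U]
    rfl
  set a1 := (1 / (N : ℂ)) • ∑ n, S.ι (S.UA (k • bb p β (φ l)) (v n) * star (v n))
  set a2 := (1 / (N : ℂ)) • ∑ n, S.U (k • c n) Gl
  have hfin : a1 - S.PR (W p (φ l)) Gl = (a1 - a2) + (a2 - x) + (x - S.PR (W p (φ l)) Gl) := by
    abel
  change ‖a1 - S.PR (W p (φ l)) Gl‖ ≤ ε
  rw [hfin]
  refine (norm_add_le _ _).trans ?_
  have := norm_add_le (a1 - a2) (a2 - x)
  linarith

end Pool.Agent.H18.BE
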